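import Mathlib
import Pool.Agent.ISB.Defs
import Pool.Agent.ISO.Final

/-!
# CLF / Conv: from tensors to polynomials
-/

set_option autoImplicit false

namespace Pool.Agent.CLF

open MvPolynomial Pool.Agent.CLU Pool.Agent.ISO Pool.Agent.ISB

theorem poly_toT (F : S) (hF : F.IsHomogeneous 3) : ISB.poly (toT F) = F := by
  apply MvPolynomial.funext
  intro p
  rw [← ev_toT F hF p]
  simp [ISB.poly, ev]

theorem nodal_of_NQ {F G : S} (hF : F.IsHomogeneous 3) (hG : G.IsHomogeneous 3)
    (h : NQ (toT F) (toT G)) : ∃ B ∈ Ideal.span {F, G}, NodalQuartic B := by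
  obtain ⟨L0, L1, -, -, hB⟩ := h
  rw [poly_toT F hF, poly_toT G hG] at hB
  exact ⟨L0 * F + L1 * G, Ideal.add_mem _ (Ideal.mul_mem_left _ _ (Ideal.subset_span (by simp)))
    (Ideal.mul_mem_left _ _ (Ideal.subset_span (by simp))), hB⟩

end Pool.Agent.CLF
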