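import Mathlib
import Pool.Agent.CLU.Defs

/-!
# CLF / Mem: the cubics in an ideal generated by two cubics
-/

set_option autoImplicit false

namespace Pool.Agent.CLF

open MvPolynomial Pool.Agent.CLU

/-- The homogeneous component of degree `d + n` of a product with a form of degree `n`. -/
theorem hc_mul (u f : S) {n : ℕ} (hf : f.IsHomogeneous n) (d : ℕ) :
    homogeneousComponent (d + n) (u * f) = homogeneousComponent d u * f := by
  have hsum : u * f = ∑ i ∈ Finset.range (u.totalDegree + 1 + d + 1), homogeneousComponent i u * f := by
    rw [← Finset.sum_mul]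
    congr 1
    conv_lhs => rw [← sum_homogeneousComponent u]
    apply Finset.sum_subset
    · intro i hi
      rw [Finset.mem_range] at hi ⊢
      omega
    · intro i _ hi
      rw [Finset.mem_range, not_lt] at hi
      exact homogeneousComponent_eq_zero _ _ (by omega)
  rw [hsum, map_sum, Finset.sum_eq_single d]
  · exact homogeneousComponent_of_mem (((homogeneousComponent_isHomogeneous d u).mul hf)) |>.trans
      (by simp)
  · intro i _ hi
    have h1 := homogeneousComponent_of_mem (n := i + n) (m := d + n)
      ((homogeneousComponent_isHomogeneous i u).mul hf)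
    rw [h1, if_neg (by omega)]
  · intro hd
    exact absurd (Finset.mem_range.2 (by omega)) hd

/-- A cubic form in the ideal generated by two cubic forms is a linear combination of them. -/
theorem cubic_mem {f g F : S} (hf : f.IsHomogeneous 3) (hg : g.IsHomogeneous 3)
    (hF : F.IsHomogeneous 3) (h : F ∈ Ideal.span {f, g}) :
    ∃ a b : ℂ, F = C a * f + C b * g := by
  rw [Ideal.mem_span_pair] at h
  obtain ⟨u, v, huv⟩ := h
  have h1 : homogeneousComponent (0 + 3) F = F := by
    have := homogeneousComponent_of_mem (n := 3) (m := 0 + 3) hF
    simpa using this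
  rw [← huv, map_add, hc_mul u f hf 0, hc_mul v g hg 0, homogeneousComponent_zero,
    homogeneousComponent_zero] at h1
  exact ⟨coeff 0 u, coeff 0 v, by rw [← huv, h1]⟩

end Pool.Agent.CLF
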