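import Mathlib
import Pool.Agent.CLF.Mem
import Pool.Agent.CLU.Final
import Pool.Agent.CLN.NegD
import Pool.Agent.ISO.Final

/-!
# CLF / Glue: which blow-ups of `ℙ^3` are of cluster type
-/

set_option autoImplicit false

namespace Pool.Agent.CLF

open MvPolynomial Pool.Agent.CLU Pool.Agent.CLN Pool.Agent.ISO

/-- The centre of a blow-up of the family 2-4: the ideal of an integral curve which is the smooth
complete intersection of two cubic surfaces. -/
def TwoFour (Z : Set (Ideal S)) : Prop :=
  ∃ (P : Ideal S) (F G : S), Z = {P} ∧ IsCurve P ∧ F.IsHomogeneous 3 ∧ G.IsHomogeneous 3 ∧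
    SmoothBase F G ∧ P = Ideal.span {F, G}

/-- A point where all first and second derivatives of `F` vanish (the surface is a cone with this
vertex, if `F` is a cubic form). -/
def IsCone (F : S) : Prop :=
  ∃ p : Fin 4 → ℂ, p ≠ 0 ∧ (∀ j, eval p (pderiv j F) = 0) ∧ hess F p = 0

theorem glue
    (hA : ∀ F G : S, F.IsHomogeneous 3 → G.IsHomogeneous 3 → SmoothBase F G →
      (∀ a b : ℂ, ∀ p : Fin 4 → ℂ, ¬ DoublePoint (C a * F + C b * G) p) →
      (∀ B ∈ Ideal.span {F, G}, ¬ NodalQuartic B) →
      (∃ a b : ℂ, (a, b) ≠ 0 ∧ IsCone (C a * F + C b * G)) → IsDiagonal (Ideal.span {F, G}))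
    (hB : ∀ F G : S, F.IsHomogeneous 3 → G.IsHomogeneous 3 → SmoothBase F G →
      (∀ a b : ℂ, ∀ p : Fin 4 → ℂ, ¬ DoublePoint (C a * F + C b * G) p) →
      (∀ a b : ℂ, (a, b) ≠ 0 → ¬ IsCone (C a * F + C b * G)) →
      ∃ B ∈ Ideal.span {F, G}, NodalQuartic B)
    (Z : Set (Ideal S)) (h : FanoCentres Z ∨ TwoFour Z) :
    IsClusterType (primeDivisors Z) ↔ ¬ ∃ P, Z = {P} ∧ IsDiagonal P := by
  constructor
  · rintro hcl ⟨P, rfl, hd⟩
    have hP : P.IsPrime := by
      rcases h with h | ⟨P', F, G, hZ, hP', -⟩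
      · exact h.isPrime P (Set.mem_singleton P)
      · rw [Set.singleton_eq_singleton_iff.1 hZ]
        exact hP'.1
    exact not_cluster_of_isDiagonal hd hP hcl
  · intro hnd
    rcases h with h | ⟨P, F, G, rfl, hP, hF, hG, hs, hPs⟩
    · exact main' Z h
    · have hnd' : ¬ IsDiagonal P := fun hd => hnd ⟨P, rfl, hd⟩
      by_cases h1 : ∃ a b : ℂ, ∃ p : Fin 4 → ℂ, DoublePoint (C a * F + C b * G) p
      · obtain ⟨a, b, p, hp⟩ := h1
        refine pencil' P hP (Or.inl ⟨C a * F + C b * G, ?_, ?_, p, hp⟩)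
        · rw [hPs]
          exact Ideal.add_mem _ (Ideal.mul_mem_left _ _ (Ideal.subset_span (by simp)))
            (Ideal.mul_mem_left _ _ (Ideal.subset_span (by simp)))
        · have e0 : (C a * F).IsHomogeneous 3 := by
            have := (isHomogeneous_C (Fin 4) a).mul hF
            simpa using this
          have e1 : (C b * G).IsHomogeneous 3 := by
            have := (isHomogeneous_C (Fin 4) b).mul hG
            simpa using this
          exact e0.add e1
      · push Not at h1
        by_cases h2 : ∃ B ∈ P, NodalQuartic B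
        · exact pencil' P hP (Or.inr h2)
        · exfalso
          by_cases h3 : ∃ a b : ℂ, (a, b) ≠ 0 ∧ IsCone (C a * F + C b * G)
          · apply hnd'
            rw [hPs]
            refine hA F G hF hG hs h1 ?_ h3
            intro B hB hN
            exact h2 ⟨B, hPs ▸ hB, hN⟩
          · push Not at h3
            obtain ⟨B, hB, hN⟩ := hB F G hF hG hs h1 h3
            exact h2 ⟨B, hPs ▸ hB, hN⟩

end Pool.Agent.CLF
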