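import Mathlib
import Pool.Agent.CLF.Glue
import Pool.Agent.CLF.Conv
import Pool.Agent.CLA.Final
import Pool.Agent.ISB.FinalB

/-!
# CLF / Final: the smooth Fano blow-ups of `ℙ^3` of cluster type
-/

set_option autoImplicit false

namespace Pool.Agent.CLF

open MvPolynomial Pool.Agent.CLU Pool.Agent.CLN Pool.Agent.ISO Pool.Agent.ISB

theorem final (Z : Set (Ideal S)) (h : FanoCentres Z ∨ TwoFour Z) :
    IsClusterType (primeDivisors Z) ↔ ¬ ∃ P, Z = {P} ∧ IsDiagonal P := by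
  refine glue ?_ ?_ Z h
  · intro F G hF hG hs h1 h2 h3
    obtain ⟨a, b, hab, p, hp, hg, hh⟩ := h3
    exact CLA.coneCase F G hF hG ⟨hs, fun a b _ p => h1 a b p, h2⟩ a b hab p hp hg hh
  · intro F G hF hG hs h1 h2
    refine nodal_of_NQ hF hG (caseB (pen_toT F G hF hG hs (fun a b _ p => h1 a b p) ?_))
    intro a b hab p hp hg hh
    exact h2 a b hab ⟨p, hp, hg, hh⟩

end Pool.Agent.CLF
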